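import Mathlib

set_option autoImplicit false
open Finset

namespace Pool.Agent.Q265.KT

/-- second order upper bound for powers -/
theorem pow_upper (A x : ℝ) (hA : 0 ≤ A) (hx : 0 ≤ x) (h1 : A + x ≤ 1) :
    ∀ t : ℕ, 1 ≤ t → (A + x) ^ t ≤ A ^ t + t * A ^ (t - 1) * x + (t : ℝ) ^ 2 * x ^ 2 := by
  intro t ht
  induction t, ht using Nat.le_induction with
  | base => simp; positivity
  | succ t ht ih =>
    obtain ⟨s, rfl⟩ : ∃ s, t = s + 1 := ⟨t - 1, by omega⟩
    have e1 : s + 1 - 1 = s := rfl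
    have e2 : s + 1 + 1 - 1 = s + 1 := rfl
    rw [e1] at ih
    rw [e2]
    have hAx : 0 ≤ A + x := by positivity
    have hA1 : A ≤ 1 := by linarith
    have hAs : A ^ s ≤ 1 := pow_le_one₀ hA hA1
    have h2 : (A + x) ^ (s + 1 + 1) ≤ (A + x) * (A ^ (s + 1) + ((s + 1 : ℕ) : ℝ) * A ^ s * x) +
        ((s + 1 : ℕ) : ℝ) ^ 2 * x ^ 2 := by
      have h3 : (A + x) ^ (s + 1 + 1) = (A + x) * (A + x) ^ (s + 1) := by ring
      rw [h3]
      have h4 := mul_le_mul_of_nonneg_left ih hAx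
      have h5 : (A + x) * (((s + 1 : ℕ) : ℝ) ^ 2 * x ^ 2) ≤ 1 * (((s + 1 : ℕ) : ℝ) ^ 2 * x ^ 2) :=
        mul_le_mul_of_nonneg_right h1 (by positivity)
      calc _ ≤ _ := h4
        _ = (A + x) * (A ^ (s + 1) + ((s + 1 : ℕ) : ℝ) * A ^ s * x) + (A + x) * (((s + 1 : ℕ) : ℝ) ^ 2 * x ^ 2) := by ring
        _ ≤ _ := by linarith
    refine h2.trans ?_
    have h6 : ((s + 1 : ℕ) : ℝ) * A ^ s * x ^ 2 ≤ ((s + 1 : ℕ) : ℝ) * 1 * x ^ 2 := by
      apply mul_le_mul_of_nonneg_right _ (by positivity)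
      exact mul_le_mul_of_nonneg_left hAs (by positivity)
    push_cast at h6 ⊢
    have h7 : (A + x) * (A ^ (s + 1) + ((s : ℝ) + 1) * A ^ s * x) + ((s : ℝ) + 1) ^ 2 * x ^ 2 =
        A ^ (s + 1 + 1) + ((s : ℝ) + 1 + 1) * A ^ (s + 1) * x + (((s : ℝ) + 1) * A ^ s * x ^ 2) + ((s : ℝ) + 1) ^ 2 * x ^ 2 := by
      ring
    rw [h7]
    have h8 : ((s : ℝ) + 1) * 1 * x ^ 2 + ((s : ℝ) + 1) ^ 2 * x ^ 2 ≤ ((s : ℝ) + 1 + 1) ^ 2 * x ^ 2 := by
      have : 0 ≤ (s : ℝ) * x ^ 2 := by positivity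
      nlinarith [sq_nonneg x]
    linarith

theorem pow_lower (A x : ℝ) (hA : 0 ≤ A) (hx : 0 ≤ x) :
    ∀ t : ℕ, A ^ t + t * A ^ (t - 1) * x ≤ (A + x) ^ t := by
  intro t
  induction t with
  | zero => simp
  | succ t ih =>
    rcases Nat.eq_zero_or_pos t with rfl | ht
    · simp
    · obtain ⟨s, rfl⟩ : ∃ s, t = s + 1 := ⟨t - 1, by omega⟩
      have e1 : s + 1 - 1 = s := rfl
      have e2 : s + 1 + 1 - 1 = s + 1 := rfl
      rw [e1] at ih
      rw [e2]
      have h4 := mul_le_mul_of_nonneg_left ih (add_nonneg hA hx)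
      have h3 : (A + x) ^ (s + 1 + 1) = (A + x) * (A + x) ^ (s + 1) := by ring
      rw [h3]
      refine le_trans ?_ h4
      push_cast
      have : 0 ≤ ((s : ℝ) + 1) * A ^ s * x ^ 2 := by positivity
      have h7 : (A + x) * (A ^ (s + 1) + ((s : ℝ) + 1) * A ^ s * x) =
        A ^ (s + 1 + 1) + ((s : ℝ) + 1 + 1) * A ^ (s + 1) * x + (((s : ℝ) + 1) * A ^ s * x ^ 2) := by
        ring
      rw [h7]
      linarith

section rel

variable {X : Type} [Fintype X] [DecidableEq X] (g : X → X → ℝ) (N d : ℝ)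

/-- weights of triangles in the complement relation -/
theorem tri_count (hN : (Fintype.card X : ℝ) = N) (hsymm : ∀ x y, g x y = g y x)
    (hreg : ∀ x, ∑ y, g x y = d) (htri : ∀ x y z, g x y * g y z * g x z = 0) :
    ∑ x, ∑ y, ∑ z, (1 - g x y) * (1 - g y z) * (1 - g x z) = N ^ 3 - 3 * N ^ 2 * d + 3 * N * d ^ 2 := by
  have hreg' : ∀ y, ∑ x, g x y = d := fun y => by
    rw [← hreg y]; exact sum_congr rfl (fun x _ => hsymm x y)
  have e1 : ∀ x y z, (1 - g x y) * (1 - g y z) * (1 - g x z) =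
      1 - g x y - g y z - g x z + g x y * g y z + g x y * g x z + g y z * g x z := by
    intro x y z
    have := htri x y z
    linear_combination (-1 : ℝ) * this
  simp_rw [e1]
  have hc : ∑ _x : X, (1 : ℝ) = N := by simp [hN]
  have s1 : ∑ _x : X, ∑ _y : X, ∑ _z : X, (1 : ℝ) = N ^ 3 := by
    simp only [sum_const, card_univ, nsmul_eq_mul, hN]; ring
  have s2 : ∑ x, ∑ y, ∑ z : X, g x y = N ^ 2 * d := by
    simp only [sum_const, card_univ, nsmul_eq_mul, hN, ← mul_sum, hreg]; ring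
  have s3 : ∑ x : X, ∑ y, ∑ z, g y z = N ^ 2 * d := by
    simp only [sum_const, card_univ, nsmul_eq_mul, hN, hreg]; ring
  have s4 : ∑ x, ∑ y : X, ∑ z, g x z = N ^ 2 * d := by
    simp only [sum_const, card_univ, nsmul_eq_mul, hN, hreg]; ring
  have s5 : ∑ x, ∑ y, ∑ z, g x y * g y z = N * d ^ 2 := by
    simp only [← mul_sum, hreg, ← sum_mul, sum_const, card_univ, nsmul_eq_mul, hN]; ring
  have s6 : ∑ x, ∑ y, ∑ z, g x y * g x z = N * d ^ 2 := by
    simp only [← mul_sum, hreg, ← sum_mul, sum_const, card_univ, nsmul_eq_mul, hN]; ring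
  have s7 : ∑ x, ∑ y, ∑ z, g y z * g x z = N * d ^ 2 := by
    have : ∀ x, ∑ y, ∑ z, g y z * g x z = d * d := by
      intro x
      rw [sum_comm]
      simp only [← sum_mul, hreg', ← mul_sum, hreg]
    simp only [this, sum_const, card_univ, nsmul_eq_mul, hN]; ring
  simp only [sum_add_distrib, sum_sub_distrib, s1, s2, s3, s4, s5, s6, s7]
  ring

/-- codegree -/
def cd (x y : X) : ℝ := ∑ b, g x b * g y b

def cd3 (x y z : X) : ℝ := ∑ b, g x b * g y b * g z b

theorem sum_f (hN : (Fintype.card X : ℝ) = N) (hreg : ∀ x, ∑ y, g x y = d) (x y z : X) :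
    ∑ b, (1 - g x b) * (1 - g y b) * (1 - g z b) = N - 3 * d + (cd g x y + cd g x z + cd g y z - cd3 g x y z) := by
  have e1 : ∀ b, (1 - g x b) * (1 - g y b) * (1 - g z b) =
      1 - g x b - g y b - g z b + g x b * g y b + g x b * g z b + g y b * g z b - g x b * g y b * g z b := by
    intro b; ring
  simp_rw [e1]
  simp only [sum_add_distrib, sum_sub_distrib, hreg, cd, cd3]
  simp only [sum_const, card_univ, nsmul_eq_mul, hN]
  ring

theorem sum_cd (hsymm : ∀ x y, g x y = g y x) (hN : (Fintype.card X : ℝ) = N) (hreg : ∀ x, ∑ y, g x y = d) :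
    ∑ x, ∑ y, cd g x y = N * d ^ 2 := by
  have hreg' : ∀ y, ∑ x, g x y = d := fun y => by
    rw [← hreg y]; exact sum_congr rfl (fun x _ => hsymm x y)
  unfold cd
  have : ∀ x, ∑ y, ∑ b, g x b * g y b = d * d := by
    intro x
    rw [sum_comm]
    simp only [← mul_sum, hreg', ← sum_mul, hreg]
  simp only [this, sum_const, card_univ, nsmul_eq_mul, hN]; ring

theorem sum_cd3 (hsymm : ∀ x y, g x y = g y x) (hN : (Fintype.card X : ℝ) = N) (hreg : ∀ x, ∑ y, g x y = d) :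
    ∑ x, ∑ y, ∑ z, cd3 g x y z = N * d ^ 3 := by
  have hreg' : ∀ y, ∑ x, g x y = d := fun y => by
    rw [← hreg y]; exact sum_congr rfl (fun x _ => hsymm x y)
  unfold cd3
  have : ∀ x, ∑ y, ∑ z, ∑ b, g x b * g y b * g z b = d * d * d := by
    intro x
    have h1 : ∀ y, ∑ z, ∑ b, g x b * g y b * g z b = ∑ b, g x b * g y b * d := by
      intro y
      rw [sum_comm]
      simp only [← mul_sum, hreg']
    simp only [h1]
    rw [sum_comm]
    simp only [← sum_mul, ← mul_sum, hreg', hreg]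
  simp only [this, sum_const, card_univ, nsmul_eq_mul, hN]; ring

/-- main inequality, in normalised form -/
theorem main_ineq (hN : (Fintype.card X : ℝ) = N) (hsymm : ∀ x y, g x y = g y x)
    (h01 : ∀ x y, g x y = 0 ∨ g x y = 1)
    (hreg : ∀ x, ∑ y, g x y = d) (hcd : ∀ x y, x ≠ y → cd g x y ≤ 1)
    (hNpos : 0 < N) (hd : 0 < d) (q : ℝ) (hq : d = q * N) (hq2 : 1 / N = 2 * q ^ 2)
    (t : ℕ) (ht : 1 ≤ t) (hqt : 39 * t * q < 1) :
    (∑ x, ∑ y, ∑ z, (∑ b, (1 - g x b) * (1 - g y b) * (1 - g z b)) ^ t) / N ^ (3 + t) <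
      (1 - 3 * q + 3 * q ^ 2) ^ t := by
  have htR : (1 : ℝ) ≤ t := by exact_mod_cast ht
  have hqpos : 0 < q := by
    by_contra hcon
    push Not at hcon
    have : q * N ≤ 0 := mul_nonpos_of_nonpos_of_nonneg hcon hNpos.le
    linarith
  have hq39 : 39 * q < 1 := by nlinarith
  set A : ℝ := 1 - 3 * q with hA
  have hApos : 0 ≤ A := by rw [hA]; linarith
  have hg0 : ∀ x y, 0 ≤ g x y := fun x y => by rcases h01 x y with h | h <;> rw [h] <;> norm_num
  have hg1 : ∀ x y, g x y ≤ 1 := fun x y => by rcases h01 x y with h | h <;> rw [h] <;> norm_num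
  have hcd0 : ∀ x y, 0 ≤ cd g x y := fun x y => sum_nonneg (fun b _ => mul_nonneg (hg0 _ _) (hg0 _ _))
  have hcd30 : ∀ x y z, 0 ≤ cd3 g x y z := fun x y z =>
    sum_nonneg (fun b _ => mul_nonneg (mul_nonneg (hg0 _ _) (hg0 _ _)) (hg0 _ _))
  have hcd3le : ∀ x y z, cd3 g x y z ≤ cd g x y := fun x y z =>
    sum_le_sum (fun b _ => mul_le_of_le_one_right (mul_nonneg (hg0 _ _) (hg0 _ _)) (hg1 _ _))
  -- the deviation
  set w : X → X → X → ℝ := fun x y z => cd g x y + cd g x z + cd g y z - cd3 g x y z with hw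
  have hw0 : ∀ x y z, 0 ≤ w x y z := by
    intro x y z
    have := hcd3le x y z; have := hcd0 x z; have := hcd0 y z
    simp only [hw]; linarith
  have hwle : ∀ x y z, w x y z ≤ cd g x y + cd g x z + cd g y z := by
    intro x y z
    have := hcd30 x y z
    simp only [hw]; linarith
  have hf : ∀ x y z, (∑ b, (1 - g x b) * (1 - g y b) * (1 - g z b)) = N * (A + w x y z / N) := by
    intro x y z
    rw [sum_f g N d hN hreg]
    simp only [hw, hA, hq]
    field_simp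
  have hfle : ∀ x y z, A + w x y z / N ≤ 1 := by
    intro x y z
    have h1 : (∑ b, (1 - g x b) * (1 - g y b) * (1 - g z b)) ≤ ∑ _b : X, (1 : ℝ) := by
      apply sum_le_sum
      intro b _
      rcases h01 x b with h | h <;> rcases h01 y b with h' | h' <;> rcases h01 z b with h'' | h'' <;>
        rw [h, h', h''] <;> norm_num
    rw [hf] at h1
    simp only [sum_const, card_univ, nsmul_eq_mul, hN, mul_one] at h1
    have : N * (A + w x y z / N) ≤ N * 1 := by linarith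
    exact le_of_mul_le_mul_left this hNpos
  -- sum of w
  have hsw : ∑ x, ∑ y, ∑ z, w x y z = 3 * N ^ 2 * d ^ 2 - N * d ^ 3 := by
    simp only [hw, sum_add_distrib, sum_sub_distrib]
    have e1 : ∑ x, ∑ y, ∑ z : X, cd g x y = N * (N * d ^ 2) := by
      simp only [sum_const, card_univ, nsmul_eq_mul, hN, ← mul_sum, sum_cd g N d hsymm hN hreg]
    have e2 : ∑ x, ∑ y : X, ∑ z, cd g x z = N * (N * d ^ 2) := by
      simp only [sum_const, card_univ, nsmul_eq_mul, hN, ← mul_sum, sum_cd g N d hsymm hN hreg]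
    have e3 : ∑ x : X, ∑ y, ∑ z, cd g y z = N * (N * d ^ 2) := by
      simp only [sum_const, card_univ, nsmul_eq_mul, hN, ← mul_sum, sum_cd g N d hsymm hN hreg]
    rw [e1, e2, e3, sum_cd3 g N d hsymm hN hreg]
    ring
  -- sum of squares
  have hcdself : ∀ x, cd g x x = d := by
    intro x
    unfold cd
    rw [← hreg x]
    refine sum_congr rfl (fun b _ => ?_)
    rcases h01 x b with h | h <;> rw [h] <;> norm_num
  have hcdsq : ∑ x, ∑ y, (cd g x y) ^ 2 ≤ 2 * (N * d ^ 2) := by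
    have h1 : ∀ x y, (cd g x y) ^ 2 ≤ cd g x y + (if x = y then d ^ 2 else 0) := by
      intro x y
      by_cases h : x = y
      · subst h
        rw [if_pos rfl, hcdself]
        linarith
      · rw [if_neg h, add_zero]
        have := hcd x y h
        have := hcd0 x y
        nlinarith
    calc ∑ x, ∑ y, (cd g x y) ^ 2 ≤ ∑ x, ∑ y, (cd g x y + (if x = y then d ^ 2 else 0)) :=
          sum_le_sum (fun x _ => sum_le_sum (fun y _ => h1 x y))
      _ = N * d ^ 2 + N * d ^ 2 := by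
          simp only [sum_add_distrib, sum_cd g N d hsymm hN hreg]
          simp [hN]
      _ = _ := by ring
  have hsw2 : ∑ x, ∑ y, ∑ z, (w x y z) ^ 2 ≤ 18 * N ^ 2 * d ^ 2 := by
    have h1 : ∀ x y z, (w x y z) ^ 2 ≤ 3 * ((cd g x y) ^ 2 + (cd g x z) ^ 2 + (cd g y z) ^ 2) := by
      intro x y z
      have h2 := hw0 x y z
      have h3 := hwle x y z
      have h4 : (w x y z) ^ 2 ≤ (cd g x y + cd g x z + cd g y z) ^ 2 := pow_le_pow_left₀ h2 h3 2
      nlinarith [sq_nonneg (cd g x y - cd g x z), sq_nonneg (cd g x y - cd g y z), sq_nonneg (cd g x z - cd g y z)]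
    calc ∑ x, ∑ y, ∑ z, (w x y z) ^ 2 ≤ ∑ x, ∑ y, ∑ z, 3 * ((cd g x y) ^ 2 + (cd g x z) ^ 2 + (cd g y z) ^ 2) :=
          sum_le_sum (fun x _ => sum_le_sum (fun y _ => sum_le_sum (fun z _ => h1 x y z)))
      _ = 9 * N * ∑ x, ∑ y, (cd g x y) ^ 2 := by
          simp only [← mul_sum, sum_add_distrib]
          simp only [sum_const, card_univ, nsmul_eq_mul, hN, ← mul_sum]
          ring
      _ ≤ 9 * N * (2 * (N * d ^ 2)) := mul_le_mul_of_nonneg_left hcdsq (by positivity)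
      _ = _ := by ring
  -- main computation
  have hmain : (∑ x, ∑ y, ∑ z, (∑ b, (1 - g x b) * (1 - g y b) * (1 - g z b)) ^ t) ≤
      N ^ t * (N ^ 3 * A ^ t + t * A ^ (t - 1) * ((3 * N ^ 2 * d ^ 2 - N * d ^ 3) / N) +
        (t : ℝ) ^ 2 * (18 * N ^ 2 * d ^ 2 / N ^ 2)) := by
    have h1 : ∀ x y z, (∑ b, (1 - g x b) * (1 - g y b) * (1 - g z b)) ^ t ≤
        N ^ t * (A ^ t + t * A ^ (t - 1) * (w x y z / N) + (t : ℝ) ^ 2 * ((w x y z) ^ 2 / N ^ 2)) := by
      intro x y z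
      rw [hf, mul_pow]
      apply mul_le_mul_of_nonneg_left _ (by positivity)
      have := pow_upper A (w x y z / N) hApos (div_nonneg (hw0 x y z) hNpos.le) (hfle x y z) t ht
      rw [div_pow] at this
      exact this
    calc _ ≤ ∑ x, ∑ y, ∑ z, N ^ t * (A ^ t + t * A ^ (t - 1) * (w x y z / N) + (t : ℝ) ^ 2 * ((w x y z) ^ 2 / N ^ 2)) :=
          sum_le_sum (fun x _ => sum_le_sum (fun y _ => sum_le_sum (fun z _ => h1 x y z)))
      _ = N ^ t * (N ^ 3 * A ^ t + t * A ^ (t - 1) * ((∑ x, ∑ y, ∑ z, w x y z) / N) +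
        (t : ℝ) ^ 2 * ((∑ x, ∑ y, ∑ z, (w x y z) ^ 2) / N ^ 2)) := by
          simp only [← mul_sum, sum_add_distrib, ← sum_div]
          simp only [sum_const, card_univ, nsmul_eq_mul, hN]
          ring
      _ ≤ _ := by
          rw [hsw]
          apply mul_le_mul_of_nonneg_left _ (by positivity)
          have : (∑ x, ∑ y, ∑ z, (w x y z) ^ 2) / N ^ 2 ≤ 18 * N ^ 2 * d ^ 2 / N ^ 2 :=
            div_le_div_of_nonneg_right hsw2 (by positivity)
          have := mul_le_mul_of_nonneg_left this (show (0 : ℝ) ≤ (t : ℝ) ^ 2 by positivity)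
          linarith
  have hlow := pow_lower A (3 * q ^ 2) hApos (by positivity) t
  refine lt_of_lt_of_le ?_ hlow
  rw [div_lt_iff₀ (by positivity)]
  refine lt_of_le_of_lt hmain ?_
  have hN2 : N * (2 * q ^ 2) = 1 := by
    rw [← hq2]; field_simp
  have e3 : N ^ t * (N ^ 3 * A ^ t + t * A ^ (t - 1) * ((3 * N ^ 2 * d ^ 2 - N * d ^ 3) / N) +
        (t : ℝ) ^ 2 * (18 * N ^ 2 * d ^ 2 / N ^ 2)) =
      (A ^ t + t * A ^ (t - 1) * (3 * q ^ 2 - q ^ 3) + (t : ℝ) ^ 2 * (18 * q ^ 2 * (2 * q ^ 2))) * N ^ (3 + t) := by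
    rw [← hq2, hq]
    field_simp
    ring
  rw [e3]
  apply mul_lt_mul_of_pos_right _ (by positivity)
  -- reduce to t q^3 A^(t-1) > 36 t^2 q^4
  have hbern : 1 - 3 * q * (t - 1) ≤ A ^ (t - 1) := by
    have h1 := one_add_mul_le_pow (a := -(3 * q)) (by linarith) (t - 1)
    have h2 : (1 : ℝ) + -(3 * q) = A := by rw [hA]; ring
    rw [h2, Nat.cast_sub ht] at h1
    push_cast at h1
    linarith
  have hkey : 36 * t * q < A ^ (t - 1) := by nlinarith
  have h9 : (t : ℝ) * q ^ 3 * (36 * t * q) < t * q ^ 3 * A ^ (t - 1) :=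
    mul_lt_mul_of_pos_left hkey (by positivity)
  nlinarith

end rel

end Pool.Agent.Q265.KT
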