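import Mathlib

set_option autoImplicit false
open Finset SimpleGraph

namespace Pool.Agent.Q265.KT

theorem lcc_eq {V W : Type} [Fintype V] [Fintype W] 
    (G : SimpleGraph V) (H : SimpleGraph W) :
    G.labelledCopyCount H = Nat.card (Copy H G) := by
  classical
  rw [labelledCopyCount, Nat.card_eq_fintype_card]

instance {V W : Type} [Fintype V] [Fintype W] 
    (G : SimpleGraph V) (H : SimpleGraph W) : Finite (Copy H G) := by
  classical
  infer_instance

/-- each unlabelled copy comes from at most `(card V)!` labelled ones -/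
theorem labelled_le {V W : Type} [Fintype V] [Fintype W] 
    (G : SimpleGraph V) (H : SimpleGraph W) :
    G.labelledCopyCount H ≤ (Fintype.card W).factorial * G.copyCount H := by
  classical
  rw [copyCount_eq_card_image_copyToSubgraph, labelledCopyCount, ← Finset.card_univ]
  apply Finset.card_le_mul_card_image
  intro S hS
  obtain ⟨f₀, -, hf₀⟩ := Finset.mem_image.1 hS
  -- all copies in the fibre have the same range
  have hr : ∀ f : Copy H G, f.toSubgraph = S → ∀ w, f w ∈ S.verts := by
    intro f hf w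
    rw [← hf]
    simp [Copy.toSubgraph]
  have hcardS : Fintype.card S.verts = Fintype.card W := by
    have : S.verts = Set.range f₀ := by
      rw [← hf₀]; simp [Copy.toSubgraph]
    rw [Fintype.card_congr (Equiv.setCongr this)]
    exact (Fintype.card_congr (Equiv.ofInjective f₀ f₀.injective)).symm
  have hemb : Fintype.card (W ↪ S.verts) = (Fintype.card W).factorial := by
    rw [Fintype.card_embedding_eq, hcardS, Nat.descFactorial_self]
  rw [← hemb, ← Finset.card_univ]
  let mk : ∀ f : Copy H G, f.toSubgraph = S → (W ↪ S.verts) := fun f h =>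
    ⟨fun w => ⟨f w, hr f h w⟩, fun a b hab => f.injective (congrArg Subtype.val hab)⟩
  refine Finset.card_le_card_of_injOn
    (fun f => if h : f.toSubgraph = S then mk f h else mk f₀ hf₀) ?_ ?_
  · intro f _; simp
  · intro f hf f' hf' hff
    have h1 : f.toSubgraph = S := (Finset.mem_filter.1 hf).2
    have h2 : f'.toSubgraph = S := (Finset.mem_filter.1 hf').2
    simp only [h1, h2, dite_true] at hff
    apply Copy.ext
    intro a
    exact congrArg (fun (k : W ↪ S.verts) => (k a : V)) hff

section tensor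

variable {X : Type} [Fintype X] (R : X → X → Prop)
  (hR : ∀ x y, R x y → R y x)

/-- restriction to `Fin n` of the `m`-th tensor power of the relation `R` -/
def tg (m n : ℕ) (e : Fin n ≃ (Fin m → X)) : SimpleGraph (Fin n) where
  Adj i j := i ≠ j ∧ ∀ l, R (e i l) (e j l)
  symm := ⟨fun _ _ h => ⟨h.1.symm, fun l => hR _ _ (h.2 l)⟩⟩
  loopless := ⟨fun _ h => h.1 rfl⟩

/-- homomorphisms from `K_{3,t}` -/
abbrev HH (t : ℕ) : Type := {φ : Fin 3 ⊕ Fin t → X // ∀ i j, R (φ (Sum.inl i)) (φ (Sum.inr j))}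

/-- homomorphisms from `K_3` -/
abbrev TT : Type := {τ : X × X × X // R τ.1 τ.2.1 ∧ R τ.2.1 τ.2.2 ∧ R τ.1 τ.2.2}

theorem labelled_upper (m n t : ℕ) (e : Fin n ≃ (Fin m → X)) :
    (tg R hR m n e).labelledCopyCount (completeBipartiteGraph (Fin 3) (Fin t)) ≤
      Nat.card (HH R t) ^ m := by
  classical
  have h1 : Nat.card (HH R t) ^ m = Nat.card (Fin m → HH R t) := by
    simp
  rw [h1, lcc_eq]
  have hadj : ∀ (f : Copy (completeBipartiteGraph (Fin 3) (Fin t)) (tg R hR m n e)) (i : Fin 3) (j : Fin t),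
      (tg R hR m n e).Adj (f (Sum.inl i)) (f (Sum.inr j)) := fun f i j =>
    f.toHom.map_adj (by simp [completeBipartiteGraph])
  let F : Copy (completeBipartiteGraph (Fin 3) (Fin t)) (tg R hR m n e) → (Fin m → HH R t) :=
    fun f l => ⟨fun v => e (f v) l, fun i j => (hadj f i j).2 l⟩
  refine Nat.card_le_card_of_injective F ?_
  intro f f' hff
  apply Copy.ext
  intro v
  apply e.injective
  funext l
  have h2 := congrFun hff l
  have h3 := congrArg Subtype.val h2
  exact congrFun h3 v

theorem dist_lower (m n : ℕ) (e : Fin n ≃ (Fin m → X)) (D : Finset (Fin m → TT R))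
    (hD : ∀ τ ∈ D, (fun l => (τ l).1.1) ≠ (fun l => (τ l).1.2.1) ∧
      (fun l => (τ l).1.2.1) ≠ (fun l => (τ l).1.2.2) ∧ (fun l => (τ l).1.1) ≠ (fun l => (τ l).1.2.2)) :
    D.card ≤ (tg R hR m n e).labelledCopyCount (⊤ : SimpleGraph (Fin 3)) := by
  classical
  have key : ∀ a b : Fin m → X, a ≠ b → (∀ l, R (a l) (b l)) → (tg R hR m n e).Adj (e.symm a) (e.symm b) := by
    intro a b hab hl
    refine ⟨fun hh => hab (e.symm.injective hh), fun l => ?_⟩
    simp only [Equiv.apply_symm_apply]
    exact hl l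
  let v : (Fin m → TT R) → Fin 3 → Fin n := fun τ =>
    ![e.symm (fun l => (τ l).1.1), e.symm (fun l => (τ l).1.2.1), e.symm (fun l => (τ l).1.2.2)]
  have hinj : ∀ τ ∈ D, ∀ i j : Fin 3, i ≠ j → (tg R hR m n e).Adj (v τ i) (v τ j) := by
    intro τ h i j hij
    have h' := hD τ h
    have hxy : (tg R hR m n e).Adj (v τ 0) (v τ 1) := key _ _ h'.1 (fun l => (τ l).2.1)
    have hyz : (tg R hR m n e).Adj (v τ 1) (v τ 2) := key _ _ h'.2.1 (fun l => (τ l).2.2.1)
    have hxz : (tg R hR m n e).Adj (v τ 0) (v τ 2) := key _ _ h'.2.2 (fun l => (τ l).2.2.2)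
    fin_cases i <;> fin_cases j <;> first | exact absurd rfl hij | skip
    · exact hxy
    · exact hxz
    · exact hxy.symm
    · exact hyz
    · exact hxz.symm
    · exact hyz.symm
  have hDc : D.card = Nat.card D := by simp
  rw [lcc_eq, hDc]
  let F : D → Copy (⊤ : SimpleGraph (Fin 3)) (tg R hR m n e) := fun τ =>
    ⟨⟨v τ.1, fun {i j} hij => hinj τ.1 τ.2 i j (by simpa using hij)⟩, fun i j hij => by
      by_contra hne
      exact (hinj τ.1 τ.2 i j hne).1 hij⟩
  refine Nat.card_le_card_of_injective F ?_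
  intro τ τ' hh
  apply Subtype.ext
  have h0 : v τ.1 0 = v τ'.1 0 := congrArg (fun f : Copy (⊤ : SimpleGraph (Fin 3)) (tg R hR m n e) => f 0) hh
  have h1 : v τ.1 1 = v τ'.1 1 := congrArg (fun f : Copy (⊤ : SimpleGraph (Fin 3)) (tg R hR m n e) => f 1) hh
  have h2 : v τ.1 2 = v τ'.1 2 := congrArg (fun f : Copy (⊤ : SimpleGraph (Fin 3)) (tg R hR m n e) => f 2) hh
  have g0 := e.symm.injective h0
  have g1 := e.symm.injective h1
  have g2 := e.symm.injective h2
  funext l
  apply Subtype.ext
  exact Prod.ext (congrFun g0 l) (Prod.ext (congrFun g1 l) (congrFun g2 l))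

theorem labelled_lower (m n : ℕ) (e : Fin n ≃ (Fin m → X)) :
    Nat.card (TT R) ^ m ≤ 
      (tg R hR m n e).labelledCopyCount (⊤ : SimpleGraph (Fin 3)) + 3 * (Nat.card X ^ m) ^ 2 := by
  classical
  have h1 : Nat.card (TT R) ^ m = (univ : Finset (Fin m → TT R)).card := by
    simp
  have h2 : (Nat.card X ^ m) ^ 2 = (univ : Finset ((Fin m → X) × (Fin m → X))).card := by
    simp [sq]
  rw [h1, h2]
  let px : (Fin m → TT R) → (Fin m → X) := fun τ l => (τ l).1.1
  let py : (Fin m → TT R) → (Fin m → X) := fun τ l => (τ l).1.2.1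
  let pz : (Fin m → TT R) → (Fin m → X) := fun τ l => (τ l).1.2.2
  have hext : ∀ τ τ' : Fin m → TT R, px τ = px τ' → py τ = py τ' → pz τ = pz τ' → τ = τ' := by
    intro τ τ' hx hy hz
    funext l
    apply Subtype.ext
    refine Prod.ext (congrFun hx l) (Prod.ext (congrFun hy l) (congrFun hz l))
  let A : Finset (Fin m → TT R) := univ.filter (fun τ => px τ = py τ)
  let B : Finset (Fin m → TT R) := univ.filter (fun τ => py τ = pz τ)
  let C : Finset (Fin m → TT R) := univ.filter (fun τ => px τ = pz τ)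
  let D : Finset (Fin m → TT R) := univ.filter (fun τ => px τ ≠ py τ ∧ py τ ≠ pz τ ∧ px τ ≠ pz τ)
  have hA : A.card ≤ (univ : Finset ((Fin m → X) × (Fin m → X))).card := by
    refine Finset.card_le_card_of_injOn (fun τ => (px τ, pz τ)) (fun _ _ => by simp) ?_
    intro τ h τ' h' hh
    replace h : px τ = py τ := (Finset.mem_filter.1 h).2
    replace h' : px τ' = py τ' := (Finset.mem_filter.1 h').2
    simp only [Prod.mk.injEq] at hh
    exact hext _ _ hh.1 (by rw [← h, ← h', hh.1]) hh.2
  have hB : B.card ≤ (univ : Finset ((Fin m → X) × (Fin m → X))).card := by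
    refine Finset.card_le_card_of_injOn (fun τ => (px τ, pz τ)) (fun _ _ => by simp) ?_
    intro τ h τ' h' hh
    replace h : py τ = pz τ := (Finset.mem_filter.1 h).2
    replace h' : py τ' = pz τ' := (Finset.mem_filter.1 h').2
    simp only [Prod.mk.injEq] at hh
    exact hext _ _ hh.1 (by rw [h, h', hh.2]) hh.2
  have hC : C.card ≤ (univ : Finset ((Fin m → X) × (Fin m → X))).card := by
    refine Finset.card_le_card_of_injOn (fun τ => (px τ, py τ)) (fun _ _ => by simp) ?_
    intro τ h τ' h' hh
    replace h : px τ = pz τ := (Finset.mem_filter.1 h).2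
    replace h' : px τ' = pz τ' := (Finset.mem_filter.1 h').2
    simp only [Prod.mk.injEq] at hh
    exact hext _ _ hh.1 hh.2 (by rw [← h, ← h', hh.1])
  have hD : D.card ≤ (tg R hR m n e).labelledCopyCount (⊤ : SimpleGraph (Fin 3)) := by
    apply dist_lower
    intro τ h
    exact (Finset.mem_filter.1 h).2
  have hU : (univ : Finset (Fin m → TT R)) ⊆ D ∪ (A ∪ (B ∪ C)) := by
    intro τ _
    simp only [A, B, C, D, mem_union, mem_filter, mem_univ, true_and]
    tauto
  have h3 := Finset.card_le_card hU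
  have h4 := Finset.card_union_le D (A ∪ (B ∪ C))
  have h5 := Finset.card_union_le A (B ∪ C)
  have h6 := Finset.card_union_le B C
  omega

/-- number of homomorphisms from `K_{3,t}` as a sum -/
theorem card_HH [DecidableRel R] (t : ℕ) : Nat.card (HH R t) =
    ∑ x : X, ∑ y : X, ∑ z : X, (univ.filter (fun b => R x b ∧ R y b ∧ R z b)).card ^ t := by
  classical
  have h1 : Nat.card (HH R t) =
      Nat.card (Σ τ : X × X × X, (Fin t → {b : X // R τ.1 b ∧ R τ.2.1 b ∧ R τ.2.2 b})) := by
    refine Nat.card_congr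
      { toFun := fun φ => ⟨(φ.1 (Sum.inl 0), φ.1 (Sum.inl 1), φ.1 (Sum.inl 2)), fun j => ⟨φ.1 (Sum.inr j), φ.2 0 j, φ.2 1 j, φ.2 2 j⟩⟩
        invFun := fun s => ⟨Sum.elim ![s.1.1, s.1.2.1, s.1.2.2] (fun j => (s.2 j).1), ?_⟩
        left_inv := ?_
        right_inv := ?_ }
    · intro i j
      have h := (s.2 j).2
      fin_cases i
      · exact h.1
      · exact h.2.1
      · exact h.2.2
    · intro φ
      apply Subtype.ext
      funext v
      rcases v with i | j
      · fin_cases i <;> rfl
      · rfl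
    · intro s
      rfl
  rw [h1, Nat.card_eq_fintype_card, Fintype.card_sigma, Fintype.sum_prod_type]
  refine sum_congr rfl (fun x _ => ?_)
  rw [Fintype.sum_prod_type]
  refine sum_congr rfl (fun y _ => sum_congr rfl (fun z _ => ?_))
  rw [Fintype.card_fun, Fintype.card_fin, Fintype.card_subtype]

/-- number of homomorphisms from `K_3` -/
theorem card_TT [DecidableRel R] : Nat.card (TT R) =
    ∑ x : X, ∑ y : X, ∑ z : X, if R x y ∧ R y z ∧ R x z then 1 else 0 := by
  classical
  rw [Nat.card_eq_fintype_card, Fintype.card_subtype, Finset.card_filter, Fintype.sum_prod_type]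
  refine sum_congr rfl (fun x _ => ?_)
  rw [Fintype.sum_prod_type]

end tensor

end Pool.Agent.Q265.KT
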