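import Pool.Agent.Q265.KT.Base
import Pool.Agent.Q265.KT.Tensor

set_option autoImplicit false
open Finset SimpleGraph

namespace Pool.Agent.Q265.KT

abbrev PL (p : ℕ) : Type := Bool × ZMod p × ZMod p

/-- point-line incidence relation of the affine plane (without vertical lines) -/
def inc (p : ℕ) (x y : PL p) : Prop := x.1 ≠ y.1 ∧ x.2.2 + y.2.2 = x.2.1 * y.2.1

instance (p : ℕ) : DecidableRel (inc p) := fun x y => by unfold inc; infer_instance

noncomputable def gg (p : ℕ) (x y : PL p) : ℝ := if inc p x y then 1 else 0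

theorem inc_symm (p : ℕ) (x y : PL p) (h : inc p x y) : inc p y x :=
  ⟨h.1.symm, by rw [add_comm, h.2, mul_comm]⟩

theorem gg_symm (p : ℕ) (x y : PL p) : gg p x y = gg p y x := by
  unfold gg
  have : inc p x y ↔ inc p y x := ⟨inc_symm p x y, inc_symm p y x⟩
  simp only [this]

theorem gg_01 (p : ℕ) (x y : PL p) : gg p x y = 0 ∨ gg p x y = 1 := by
  unfold gg
  split_ifs <;> simp

theorem gg_tri (p : ℕ) (x y z : PL p) : gg p x y * gg p y z * gg p x z = 0 := by
  unfold gg
  by_cases h1 : inc p x y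
  · by_cases h2 : inc p y z
    · have h3 : ¬ inc p x z := by
        intro h3
        have a := h1.1
        have b := h2.1
        have c := h3.1
        revert a b c
        cases x.1 <;> cases y.1 <;> cases z.1 <;> simp
      simp [h3]
    · simp [h2]
  · simp [h1]

theorem gg_reg (p : ℕ) [NeZero p] (x : PL p) : ∑ y, gg p x y = p := by
  unfold gg
  rw [Finset.sum_boole]
  have : (univ.filter (fun y => inc p x y)) = (univ : Finset (ZMod p)).image
      (fun z => ((!x.1, z, x.2.1 * z - x.2.2) : PL p)) := by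
    ext y
    simp only [mem_filter, mem_univ, true_and, mem_image]
    constructor
    · intro h
      refine ⟨y.2.1, ?_⟩
      have h1 : y.1 = !x.1 := by
        have := h.1
        revert this
        cases x.1 <;> cases y.1 <;> simp
      have h2 : y.2.2 = x.2.1 * y.2.1 - x.2.2 := by rw [← h.2]; ring
      exact Prod.ext h1.symm (Prod.ext rfl h2.symm)
    · rintro ⟨z, rfl⟩
      refine ⟨by simp, by simp⟩
  rw [this, Finset.card_image_of_injective]
  · simp [ZMod.card]
  · intro z z' h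
    simp only [Prod.mk.injEq] at h
    exact h.2.1

theorem gg_cd (p : ℕ) [Fact p.Prime] (x y : PL p) (hxy : x ≠ y) : cd (gg p) x y ≤ 1 := by
  unfold cd gg
  have h1 : ∀ b : PL p, (if inc p x b then (1 : ℝ) else 0) * (if inc p y b then (1 : ℝ) else 0) =
      if (inc p x b ∧ inc p y b) then 1 else 0 := by
    intro b
    split_ifs <;> simp_all
  simp_rw [h1]
  rw [Finset.sum_boole]
  have h2 : (univ.filter (fun b => inc p x b ∧ inc p y b)).card ≤ 1 := by
    rw [Finset.card_le_one]
    intro b hb c hc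
    simp only [mem_filter, mem_univ, true_and] at hb hc
    obtain ⟨⟨b1, b2⟩, ⟨b3, b4⟩⟩ := hb
    obtain ⟨⟨c1, c2⟩, ⟨c3, c4⟩⟩ := hc
    have hxy1 : x.1 = y.1 := by
      revert b1 b3
      cases x.1 <;> cases y.1 <;> cases b.1 <;> simp
    have hbc1 : b.1 = c.1 := by
      revert b1 c1
      cases x.1 <;> cases b.1 <;> cases c.1 <;> simp
    have hne : x.2.1 - y.2.1 ≠ 0 := by
      intro h0
      apply hxy
      have h01 : x.2.1 = y.2.1 := sub_eq_zero.1 h0
      have h02 : x.2.2 = y.2.2 := by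
        have : x.2.2 + b.2.2 = y.2.2 + b.2.2 := by rw [b2, b4, h01]
        exact add_right_cancel this
      exact Prod.ext hxy1 (Prod.ext h01 h02)
    have hb' : (x.2.1 - y.2.1) * b.2.1 = x.2.2 - y.2.2 := by
      linear_combination b4 - b2
    have hc' : (x.2.1 - y.2.1) * c.2.1 = x.2.2 - y.2.2 := by
      linear_combination c4 - c2
    have hbc2 : b.2.1 = c.2.1 := mul_left_cancel₀ hne (hb'.trans hc'.symm)
    have hbc3 : b.2.2 = c.2.2 := by
      have : x.2.2 + b.2.2 = x.2.2 + c.2.2 := by rw [b2, c2, hbc2]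
      exact add_left_cancel this
    exact Prod.ext hbc1 (Prod.ext hbc2 hbc3)
  exact_mod_cast h2

/-- the complement relation -/
def RR (p : ℕ) (x y : PL p) : Prop := ¬ inc p x y

instance (p : ℕ) : DecidableRel (RR p) := fun x y => by unfold RR; infer_instance

theorem RR_symm (p : ℕ) : ∀ x y, RR p x y → RR p y x := fun x y h h' => h (inc_symm p y x h')

theorem one_sub_gg (p : ℕ) (x y : PL p) : 1 - gg p x y = if RR p x y then 1 else 0 := by
  unfold gg RR
  split_ifs <;> simp_all

theorem card_HH_real (p t : ℕ) [NeZero p] : (Nat.card (HH (RR p) t) : ℝ) =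
    ∑ x, ∑ y, ∑ z, (∑ b, (1 - gg p x b) * (1 - gg p y b) * (1 - gg p z b)) ^ t := by
  rw [card_HH]
  push_cast
  refine sum_congr rfl (fun x _ => sum_congr rfl (fun y _ => sum_congr rfl (fun z _ => ?_)))
  congr 1
  rw [Finset.card_filter]
  push_cast
  refine sum_congr rfl (fun b _ => ?_)
  simp only [one_sub_gg]
  split_ifs <;> simp_all

theorem card_TT_real (p : ℕ) [NeZero p] : (Nat.card (TT (RR p)) : ℝ) =
    ∑ x, ∑ y, ∑ z, (1 - gg p x y) * (1 - gg p y z) * (1 - gg p x z) := by
  rw [card_TT]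
  push_cast
  refine sum_congr rfl (fun x _ => sum_congr rfl (fun y _ => sum_congr rfl (fun z _ => ?_)))
  simp only [one_sub_gg]
  split_ifs <;> simp_all

/-- summary: for every `t ≥ 1` there is a base relation with the required strict inequality -/
theorem exists_base (t : ℕ) (ht : 1 ≤ t) : ∃ (X : Type) (_ : Fintype X) (R : X → X → Prop) (_ : ∀ x y, R x y → R y x)
    (r s : ℝ), (8 : ℝ) ≤ Nat.card X ∧ 1 / 2 ≤ r ∧ 0 < s ∧ s < r ^ t ∧
    (Nat.card (TT R) : ℝ) = (Nat.card X : ℝ) ^ 3 * r ∧ (Nat.card (HH R t) : ℝ) ≤ (Nat.card X : ℝ) ^ (3 + t) * s := by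
  obtain ⟨p, hp1, hp⟩ := Nat.exists_infinite_primes (20 * t)
  have : Fact p.Prime := ⟨hp⟩
  have : NeZero p := ⟨hp.ne_zero⟩
  have hcard : Nat.card (PL p) = 2 * p ^ 2 := by
    simp [Nat.card_eq_fintype_card, ZMod.card, sq]
  have hpR : (20 : ℝ) * t ≤ p := by exact_mod_cast hp1
  have htR : (1 : ℝ) ≤ t := by exact_mod_cast ht
  have hp0 : (0 : ℝ) < p := by linarith
  set N : ℝ := 2 * (p : ℝ) ^ 2 with hN
  have hcardR : (Nat.card (PL p) : ℝ) = N := by rw [hcard, hN]; push_cast; ring
  have hcardF : (Fintype.card (PL p) : ℝ) = N := by rw [← hcardR, Nat.card_eq_fintype_card]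
  set q : ℝ := 1 / (2 * p) with hq
  have hqN : (p : ℝ) = q * N := by rw [hq, hN]; field_simp
  have hq2 : 1 / N = 2 * q ^ 2 := by rw [hq, hN]; field_simp
  have hqpos : 0 < q := by positivity
  have hqt : 39 * t * q < 1 := by
    rw [hq, mul_one_div, div_lt_one (by positivity)]
    linarith
  have hNpos : 0 < N := by positivity
  have hmain := main_ineq (gg p) N p hcardF (gg_symm p) (gg_01 p) (gg_reg p) (gg_cd p) hNpos hp0 q hqN hq2 t ht hqt
  have htri := tri_count (gg p) N p hcardF (gg_symm p) (gg_reg p) (gg_tri p)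
  rw [← card_HH_real] at hmain
  rw [← card_TT_real] at htri
  have hq39 : 39 * q < 1 := by nlinarith
  refine ⟨PL p, inferInstance, RR p, RR_symm p, 1 - 3 * q + 3 * q ^ 2,
    max ((Nat.card (HH (RR p) t) : ℝ) / N ^ (3 + t)) ((1 - 3 * q + 3 * q ^ 2) ^ t / 2), ?_, ?_, ?_, ?_, ?_, ?_⟩
  · rw [hcardR, hN]
    nlinarith
  · nlinarith [sq_nonneg q]
  · apply lt_max_of_lt_right
    have : 0 < 1 - 3 * q + 3 * q ^ 2 := by nlinarith [sq_nonneg q]
    positivity
  · apply max_lt hmain
    have : 0 < (1 - 3 * q + 3 * q ^ 2) ^ t := by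
      have : 0 < 1 - 3 * q + 3 * q ^ 2 := by nlinarith [sq_nonneg q]
      positivity
    linarith
  · rw [htri, hcardR, hqN]
    field_simp
  · rw [hcardR]
    have h1 : (Nat.card (HH (RR p) t) : ℝ) = N ^ (3 + t) * ((Nat.card (HH (RR p) t) : ℝ) / N ^ (3 + t)) := by
      field_simp
    calc (Nat.card (HH (RR p) t) : ℝ) = N ^ (3 + t) * ((Nat.card (HH (RR p) t) : ℝ) / N ^ (3 + t)) := h1
      _ ≤ _ := mul_le_mul_of_nonneg_left (le_max_left _ _) (by positivity)

end Pool.Agent.Q265.KT
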